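import Pool.Agent.helper40.FP.Prob

/-!
# Uniqueness of the infinite cluster: Burton - Keane argument
-/

set_option autoImplicit false

open MeasureTheory Set Filter Topology
open scoped ENNReal

namespace Pool.Agent.helper40.FP

open Pool.Agent.helper55.FP

variable {d : ℕ}

/-! ## numbers of infinite clusters -/

/-- there are `k` different infinite clusters -/
def Ak (d : ℕ) (p : ℝ) (k : ℕ) : Set (Cfg d) :=
  {U | ∃ a : Fin k → V d, (∀ i, (Cl (op p U) univ (a i)).Infinite) ∧
    ∀ i j, i ≠ j → ¬ Conn (op p U) univ (a i) (a j)}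

/-- the event for given points -/
def Aka (p : ℝ) (k : ℕ) (a : Fin k → V d) : Set (Cfg d) :=
  {U | (∀ i, (Cl (op p U) univ (a i)).Infinite) ∧
    ∀ i j, i ≠ j → ¬ Conn (op p U) univ (a i) (a j)}

theorem measurableSet_Aka (p : ℝ) (k : ℕ) (a : Fin k → V d) : MeasurableSet (Aka p k a) := by
  have : Aka p k a = (⋂ i, {U : Cfg d | (Cl (op p U) univ (a i)).Infinite}) ∩
      ⋂ i, ⋂ j, ⋂ (_ : i ≠ j), {U : Cfg d | Conn (op p U) univ (a i) (a j)}ᶜ := by
    ext U
    simp only [Aka, mem_ofPred_eq, mem_inter_iff, mem_iInter, mem_compl_iff]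
  rw [this]
  refine (MeasurableSet.iInter fun i => measurableSet_inf p univ (a i)).inter ?_
  exact MeasurableSet.iInter fun i => MeasurableSet.iInter fun j => MeasurableSet.iInter fun _ =>
    (measurableSet_conn p univ (a i) (a j)).compl

theorem Ak_eq (p : ℝ) (k : ℕ) : Ak d p k = ⋃ a : Fin k → V d, Aka p k a := by
  ext U
  simp only [Ak, Aka, mem_ofPred_eq, mem_iUnion]

theorem measurableSet_Ak (p : ℝ) (k : ℕ) : MeasurableSet (Ak d p k) := by
  rw [Ak_eq]
  exact MeasurableSet.iUnion fun a => measurableSet_Aka p k a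

theorem Aka_tr (p : ℝ) (k : ℕ) (z : V d) (a : Fin k → V d) (U : Cfg d) :
    tr z U ∈ Aka p k a ↔ U ∈ Aka p k (fun i => a i + z) := by
  simp only [Aka, mem_ofPred_eq]
  have h1 : ∀ i, (Cl (op p (tr z U)) univ (a i)).Infinite ↔
      (Cl (op p U) univ (a i + z)).Infinite := fun i => infinite_tr z p U univ (a i)
  have h2 : ∀ i j, Conn (op p (tr z U)) univ (a i) (a j) ↔
      Conn (op p U) univ (a i + z) (a j + z) := fun i j => conn_tr z p U univ (a i) (a j)
  simp only [h1, h2]

theorem Ak_tr (p : ℝ) (k : ℕ) (z : V d) : tr z ⁻¹' (Ak d p k) = Ak d p k := by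
  ext U
  rw [mem_preimage, Ak_eq, mem_iUnion, mem_iUnion]
  constructor
  · rintro ⟨a, ha⟩
    exact ⟨_, (Aka_tr p k z a U).1 ha⟩
  · rintro ⟨a, ha⟩
    refine ⟨fun i => a i - z, (Aka_tr p k z _ U).2 ?_⟩
    simpa only [sub_add_cancel] using ha

theorem Ak_zero_one (hd : 0 < d) (p : ℝ) (k : ℕ) : P d (Ak d p k) = 0 ∨ P d (Ak d p k) = 1 :=
  zero_one hd (measurableSet_Ak p k) (Ak_tr p k)

theorem exists_Aka {p : ℝ} {k : ℕ} {N : Set (Cfg d)} (h : P d (Ak d p k \ N) ≠ 0) :
    ∃ a, P d (Aka p k a \ N) ≠ 0 := by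
  by_contra hcon
  push Not at hcon
  apply h
  have : Ak d p k \ N = ⋃ a : Fin k → V d, (Aka p k a \ N) := by
    rw [Ak_eq, iUnion_sdiff]
  rw [this]
  exact measure_iUnion_null hcon

/-- not exactly two infinite clusters -/
theorem two_to_three (hd : 0 < d) {p : ℝ} (hp : 0 < p) (h2 : P d (Ak d p 2) ≠ 0) :
    P d (Ak d p 3) ≠ 0 := by
  intro h3
  have h2' : P d (Ak d p 2) = 1 := (Ak_zero_one hd p 2).resolve_left h2
  have h2c : P d (Ak d p 2)ᶜ = 0 := by
    rw [prob_compl_eq_zero_iff (measurableSet_Ak p 2)]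
    exact h2'
  have h4 : P d (Ak d p 2 \ Ak d p 3) ≠ 0 := by
    rw [measure_sdiff_null h3]
    exact h2
  obtain ⟨a, ha⟩ := exists_Aka h4
  obtain ⟨m, hm⟩ := exists_box (Finset.univ.image a)
  have ham : ∀ i, a i ∈ (↑(box d m) : Set (V d)) := fun i =>
    hm (Finset.mem_image_of_mem a (Finset.mem_univ i))
  have hBfin : ((↑(box d m) : Set (V d))).Finite := Finset.finite_toSet _
  have h5 := null_opn hp (inner_finite hBfin) (measurableSet_Ak p 2).compl
    (fun U U' hUU' hU hU' => hU (by simpa only [Ak, mem_ofPred_eq, hUU'] using hU')) h2c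
  apply ha
  refine measure_mono_null ?_ h5
  rintro U ⟨hU, hU3⟩
  simp only [mem_preimage, mem_compl_iff]
  rintro ⟨b, hb1, hb2⟩
  rw [op_opn] at hb1 hb2
  have hmerge : ∀ c, (Cl (op p U) univ c).Infinite → Conn (op p U) univ (a 0) c ∨
      Conn (op p U) univ (a 1) c := by
    intro c hc
    by_contra hcon
    push Not at hcon
    apply hU3
    refine ⟨![a 0, a 1, c], ?_, ?_⟩
    · intro i
      fin_cases i
      · exact hU.1 0
      · exact hU.1 1
      · exact hc
    · have h01 := hU.2 0 1 (by decide)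
      have h10 := hU.2 1 0 (by decide)
      intro i j hij
      fin_cases i <;> fin_cases j
      · exact absurd rfl hij
      · exact h01
      · exact hcon.1
      · exact h10
      · exact absurd rfl hij
      · exact hcon.2
      · exact fun h => hcon.1 h.symm
      · exact fun h => hcon.2 h.symm
      · exact absurd rfl hij
  have h6 := fun c hc => merge hBfin (box_conn m) (ham 0) (ham 1) hmerge c hc
  exact hb2 0 1 (by decide) ((h6 _ (hb1 0)).symm.trans (h6 _ (hb1 1)))

/-! ## trifurcation boxes -/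

theorem measurableSet_step (p : ℝ) (a b : V d) :
    MeasurableSet {U : Cfg d | Step (op p U) univ a b} := by
  have : {U : Cfg d | Step (op p U) univ a b} = ⋃ e : E d, ⋃ (_ : Joins e a b),
      {U : Cfg d | U e ≤ p} := by
    ext U
    simp only [Step, op, mem_ofPred_eq, mem_univ, true_and, mem_iUnion, exists_prop]
    exact ⟨fun ⟨e, h1, h2⟩ => ⟨e, h2, h1⟩, fun ⟨e, h1, h2⟩ => ⟨e, h2, h1⟩⟩
  rw [this]
  exact MeasurableSet.iUnion fun e => MeasurableSet.iUnion fun _ =>
    measurableSet_le (measurable_pi_apply e) measurable_const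

theorem measurableSet_tri (p : ℝ) (B : Set (V d)) : MeasurableSet {U : Cfg d | Tri (op p U) B} := by
  have : {U : Cfg d | Tri (op p U) B} = {U : Cfg d | B.Nonempty} ∩
      ((⋂ x ∈ B, ⋂ y ∈ B, {U : Cfg d | Conn (op p U) B x y}) ∩
      ⋃ a : Fin 3 → V d, ((⋂ i, ({U : Cfg d | a i ∉ B} ∩
        ((⋃ b ∈ B, {U : Cfg d | Step (op p U) univ b (a i)}) ∩
          {U : Cfg d | (Cl (op p U) Bᶜ (a i)).Infinite}))) ∩
        ⋂ i, ⋂ j, ⋂ (_ : i ≠ j), {U : Cfg d | Conn (op p U) Bᶜ (a i) (a j)}ᶜ)) := by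
    ext U
    simp only [Tri, mem_ofPred_eq, mem_inter_iff, mem_iInter, mem_iUnion, mem_compl_iff,
      exists_prop]
  rw [this]
  refine (MeasurableSet.const _).inter ((MeasurableSet.biInter (Set.to_countable B) fun x _ =>
    MeasurableSet.biInter (Set.to_countable B) fun y _ => measurableSet_conn p B x y).inter
    (MeasurableSet.iUnion fun a => ?_))
  refine (MeasurableSet.iInter fun i => ?_).inter (MeasurableSet.iInter fun i =>
    MeasurableSet.iInter fun j => MeasurableSet.iInter fun _ =>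
      (measurableSet_conn p Bᶜ (a i) (a j)).compl)
  refine (MeasurableSet.const _).inter ((MeasurableSet.biUnion (Set.to_countable B) fun b _ =>
    measurableSet_step p b (a i)).inter (measurableSet_inf p Bᶜ (a i)))

theorem tri_tr (z : V d) (p : ℝ) (U : Cfg d) (B : Set (V d))
    (h : Tri (op p (tr z U)) ((fun v => v + z) ⁻¹' B)) : Tri (op p U) B := by
  obtain ⟨⟨b, hb⟩, hc, a, ha, hd'⟩ := h
  have hcomp : ((fun v : V d => v + z) ⁻¹' B)ᶜ = (fun v : V d => v + z) ⁻¹' Bᶜ := rfl
  rw [hcomp] at ha hd'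
  refine ⟨⟨_, hb⟩, ?_, fun i => a i + z, ?_, ?_⟩
  · intro x hx y hy
    have h1 := hc (x - z) (by simpa using hx) (y - z) (by simpa using hy)
    have h2 := (conn_tr z p U B _ _).1 h1
    simpa only [sub_add_cancel] using h2
  · intro i
    obtain ⟨h1, ⟨b, hb, hs⟩, h3⟩ := ha i
    refine ⟨h1, ⟨b + z, hb, mem_univ _, mem_univ _, ?_⟩, (infinite_tr z p U Bᶜ (a i)).1 h3⟩
    obtain ⟨e, he, hj⟩ := hs.2.2
    exact ⟨trE z e, he, (joins_trE z e _ _).1 hj⟩
  · intro i j hij h1
    exact hd' i j hij ((conn_tr z p U Bᶜ _ _).2 h1)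

/-- three infinite clusters give trifurcation boxes -/
theorem exists_tri {p : ℝ} (hp : 0 < p) (h3 : P d (Ak d p 3) ≠ 0) :
    ∃ m, P d {U : Cfg d | Tri (op p U) (↑(box d m) : Set (V d))} ≠ 0 := by
  have h4 : P d (Ak d p 3 \ ∅) ≠ 0 := by rwa [sdiff_empty]
  obtain ⟨a, ha⟩ := exists_Aka h4
  rw [sdiff_empty] at ha
  obtain ⟨m, hm⟩ := exists_box (Finset.univ.image a)
  have ham : ∀ i, a i ∈ (↑(box d m) : Set (V d)) := fun i =>
    hm (Finset.mem_image_of_mem a (Finset.mem_univ i))
  have hBfin : ((↑(box d m) : Set (V d))).Finite := Finset.finite_toSet _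
  refine ⟨m, fun h0 => ha ?_⟩
  have h5 := null_opn hp (inner_finite hBfin) (measurableSet_tri p _)
    (fun U U' hUU' hU => by
      simp only [mem_ofPred_eq] at hU ⊢
      rwa [← hUU']) h0
  refine measure_mono_null ?_ h5
  intro U hU
  simp only [mem_preimage, mem_ofPred_eq]
  rw [op_opn]
  exact tri_of_three hBfin (box_conn m) a ham hU.1 hU.2

/-! ## counting -/

/-- disjoint translates of the box of radius `m` -/
def Bz (m : ℕ) (z : V d) : Set (V d) :=
  (fun v => v + (-((2 * (m : ℤ) + 1) • z))) ⁻¹' (↑(box d m) : Set (V d))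

theorem mem_Bz {m : ℕ} {z v : V d} :
    v ∈ Bz m z ↔ ∀ i, -(m : ℤ) ≤ v i - (2 * (m : ℤ) + 1) * z i ∧
      v i - (2 * (m : ℤ) + 1) * z i ≤ m := by
  simp only [Bz, mem_preimage, Finset.mem_coe, mem_box, ← sub_eq_add_neg, Pi.sub_apply,
    Pi.smul_apply, smul_eq_mul]

theorem Bz_disjoint {m : ℕ} {z z' : V d} (h : z ≠ z') : Disjoint (Bz m z) (Bz m z') := by
  rw [Set.disjoint_left]
  intro v h1 h2
  rw [mem_Bz] at h1 h2
  apply h
  funext i
  have a1 := h1 i
  have a2 := h2 i
  by_contra hne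
  rcases lt_or_gt_of_ne hne with hlt | hlt
  · have : z i + 1 ≤ z' i := hlt
    nlinarith
  · have : z' i + 1 ≤ z i := hlt
    nlinarith

theorem Bz_subset {m N : ℕ} {z : V d} (hz : z ∈ box d N) :
    Bz m z ⊆ ↑(box d ((2 * m + 1) * N + m)) := by
  intro v hv
  rw [Finset.mem_coe, mem_box]
  rw [mem_Bz] at hv
  rw [mem_box] at hz
  intro i
  have h1 := hv i
  have h2 := hz i
  push_cast
  constructor <;> nlinarith

theorem step_box {O : Set (E d)} {W : Set (V d)} {M : ℕ} {u v : V d} (h : Step O W u v)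
    (hu : u ∈ box d M) : v ∈ box d (M + 1) := by
  obtain ⟨-, -, e, -, hj⟩ := h
  rw [mem_box] at hu ⊢
  intro i
  have h1 := hu i
  rcases hj with ⟨h2, h3⟩ | ⟨h2, h3⟩
  · rw [h3, tip, ← h2]
    simp only [Pi.add_apply]
    by_cases hi : i = e.2
    · subst hi
      rw [Pi.single_eq_same]
      push_cast
      constructor <;> omega
    · rw [Pi.single_eq_of_ne hi]
      push_cast
      constructor <;> omega
  · rw [h3, tip, ← h2] at h1
    simp only [Pi.add_apply] at h1
    by_cases hi : i = e.2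
    · subst hi
      rw [Pi.single_eq_same] at h1
      push_cast
      constructor <;> omega
    · rw [Pi.single_eq_of_ne hi] at h1
      push_cast
      constructor <;> omega

open Classical in
theorem count_box (O : Set (E d)) (m N : ℕ) :
    ((box d N).filter (fun z => Tri O (Bz m z))).card ≤
      (box d ((2 * m + 1) * N + m + 1) \ box d ((2 * m + 1) * N + m)).card := by
  set M := (2 * m + 1) * N + m with hM
  have h := count (O := O) (ι := {z : V d // z ∈ (box d N).filter (fun z => Tri O (Bz m z))})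
    (fun z => Bz m z.1) (fun z z' hzz' => Bz_disjoint fun h => hzz' (Subtype.ext h))
    (fun z => (Finset.mem_filter.1 z.2).2) (box d (M + 1)) (box d (M + 1) \ box d M) ?_ ?_
  · rwa [Fintype.card_coe] at h
  · intro z
    exact (Bz_subset (Finset.mem_filter.1 z.2).1).trans
      (Finset.coe_subset.2 (box_mono (Nat.le_succ M)))
  · rintro ⟨z, hz⟩ a ha ⟨b, hb, hs⟩ hinf
    have hb' : b ∈ box d M := Bz_subset (Finset.mem_filter.1 hz).1 hb
    have ha' : a ∈ box d (M + 1) := step_box hs hb'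
    by_cases haM : a ∈ box d M
    · obtain ⟨w, hw, hwM⟩ : ∃ w ∈ Cl O (Bz m z)ᶜ a, w ∉ (↑(box d M) : Set (V d)) := by
        by_contra hcon
        push Not at hcon
        exact hinf ((Finset.finite_toSet (box d M)).subset hcon)
      obtain ⟨u, v, hu, huv, hv⟩ := exit (S := (↑(box d M) : Set (V d))) hw haM hwM
      refine ⟨v, ?_, ?_⟩
      · rw [Finset.mem_sdiff]
        exact ⟨step_box huv hu.right.2, hv⟩
      · exact (hu.mono le_rfl inter_subset_left).snoc huv
    · exact ⟨a, Finset.mem_sdiff.2 ⟨ha', haM⟩, Conn.refl ha⟩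

theorem tri_prob_le (p : ℝ) (m N : ℕ) :
    ((2 * N + 1 : ℕ) : ℝ) ^ d * (P d).real {U : Cfg d | Tri (op p U) (↑(box d m) : Set (V d))} ≤
      ((2 * m + 1 : ℕ) * (2 * N + 1 : ℕ) + 2 : ℝ) ^ d -
        ((2 * m + 1 : ℕ) * (2 * N + 1 : ℕ) : ℝ) ^ d := by
  classical
  set M := (2 * m + 1) * N + m with hM
  have h1 : ∀ z : V d, (P d).real {U : Cfg d | Tri (op p U) (↑(box d m) : Set (V d))} ≤
      (P d).real {U : Cfg d | Tri (op p U) (Bz m z)} := by
    intro z
    have e1 : (P d).real {U : Cfg d | Tri (op p U) (↑(box d m) : Set (V d))} =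
        (P d).real (tr ((2 * (m : ℤ) + 1) • z) ⁻¹'
          {U : Cfg d | Tri (op p U) (↑(box d m) : Set (V d))}) := by
      rw [measureReal_def, measureReal_def,
        (mp_tr _).measure_preimage (measurableSet_tri p _).nullMeasurableSet]
    rw [e1]
    refine measureReal_mono fun U hU => ?_
    simp only [mem_preimage, mem_ofPred_eq] at hU ⊢
    refine tri_tr ((2 * (m : ℤ) + 1) • z) p U _ ?_
    have : (fun v : V d => v + (2 * (m : ℤ) + 1) • z) ⁻¹' (Bz m z) = ↑(box d m) := by
      ext v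
      simp [Bz]
    rw [this]
    exact hU
  have h2 : ∑ z ∈ box d N, (P d).real {U : Cfg d | Tri (op p U) (Bz m z)} ≤
      ((box d (M + 1) \ box d M).card : ℝ) := by
    have e1 : ∀ z : V d, (P d).real {U : Cfg d | Tri (op p U) (Bz m z)} =
        ∫ U, ({U : Cfg d | Tri (op p U) (Bz m z)}).indicator (fun _ => (1 : ℝ)) U ∂(P d) := by
      intro z
      rw [integral_indicator (measurableSet_tri p _)]
      simp
    simp only [e1]
    rw [← integral_finsetSum]
    · have e2 : ∀ U : Cfg d, ∑ z ∈ box d N, ({U : Cfg d | Tri (op p U) (Bz m z)}).indicator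
          (fun _ => (1 : ℝ)) U ≤ ((box d (M + 1) \ box d M).card : ℝ) := by
        intro U
        have e3 : ∑ z ∈ box d N, ({U : Cfg d | Tri (op p U) (Bz m z)}).indicator
            (fun _ => (1 : ℝ)) U = ((box d N).filter (fun z => Tri (op p U) (Bz m z))).card := by
          rw [Finset.card_filter]
          push_cast
          refine Finset.sum_congr rfl fun z _ => ?_
          simp [Set.indicator_apply]
        rw [e3]
        exact_mod_cast count_box (op p U) m N
      calc _ ≤ ∫ _ : Cfg d, ((box d (M + 1) \ box d M).card : ℝ) ∂(P d) := by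
            refine integral_mono ?_ (integrable_const _) e2
            refine integrable_finsetSum _ fun z _ => ?_
            exact (integrable_const (1 : ℝ)).indicator (measurableSet_tri p _)
        _ = _ := by simp
    · intro z _
      exact (integrable_const (1 : ℝ)).indicator (measurableSet_tri p _)
  have h3 : ((2 * N + 1 : ℕ) : ℝ) ^ d * (P d).real
      {U : Cfg d | Tri (op p U) (↑(box d m) : Set (V d))} ≤
      ∑ z ∈ box d N, (P d).real {U : Cfg d | Tri (op p U) (Bz m z)} := by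
    refine le_trans (le_of_eq ?_) (Finset.sum_le_sum fun z _ => h1 z)
    rw [Finset.sum_const, card_box, nsmul_eq_mul]
    push_cast
    ring
  refine (h3.trans h2).trans (le_of_eq ?_)
  rw [Finset.card_sdiff_of_subset (box_mono (Nat.le_succ M)), Nat.cast_sub
    (Finset.card_le_card (box_mono (Nat.le_succ M))), card_box, card_box]
  push_cast
  have e1 : (2 * ((M : ℝ) + 1) + 1) = (2 * (m : ℝ) + 1) * (2 * N + 1) + 2 := by
    rw [hM]; push_cast; ring
  have e2 : (2 * (M : ℝ) + 1) = (2 * (m : ℝ) + 1) * (2 * N + 1) := by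
    rw [hM]; push_cast; ring
  rw [e1, e2]

theorem tri_null (p : ℝ) (m : ℕ) :
    P d {U : Cfg d | Tri (op p U) (↑(box d m) : Set (V d))} = 0 := by
  set ε := (P d).real {U : Cfg d | Tri (op p U) (↑(box d m) : Set (V d))} with hε
  have h1 : ∀ N : ℕ, ε ≤ ((2 * m + 1 : ℕ) + 2 / (2 * (N : ℝ) + 1)) ^ d - ((2 * m + 1 : ℕ) : ℝ) ^ d := by
    intro N
    have h := tri_prob_le (d := d) p m N
    rw [← hε] at h
    have hL : (0 : ℝ) < 2 * (N : ℝ) + 1 := by positivity
    have hLd : (0 : ℝ) < (2 * (N : ℝ) + 1) ^ d := by positivity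
    push_cast at h ⊢
    have e1 : (2 * (m : ℝ) + 1 + 2 / (2 * (N : ℝ) + 1)) =
        ((2 * (m : ℝ) + 1) * (2 * N + 1) + 2) / (2 * (N : ℝ) + 1) := by
      field_simp
    have e2 : (2 * (m : ℝ) + 1) ^ d = ((2 * (m : ℝ) + 1) * (2 * N + 1)) ^ d /
        (2 * (N : ℝ) + 1) ^ d := by
      rw [mul_pow, mul_div_assoc, div_self hLd.ne', mul_one]
    rw [e1, e2, div_pow, ← sub_div, le_div_iff₀ hLd, mul_comm]
    exact h
  have h2 : Tendsto (fun N : ℕ => ((2 * m + 1 : ℕ) + 2 / (2 * (N : ℝ) + 1)) ^ d -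
      ((2 * m + 1 : ℕ) : ℝ) ^ d) atTop (𝓝 ((((2 * m + 1 : ℕ) : ℝ) + 0) ^ d -
      ((2 * m + 1 : ℕ) : ℝ) ^ d)) := by
    refine Tendsto.sub (Tendsto.pow (Tendsto.add tendsto_const_nhds ?_) d) tendsto_const_nhds
    refine Tendsto.div_atTop tendsto_const_nhds ?_
    exact tendsto_atTop_add_const_right _ _
      (Tendsto.const_mul_atTop two_pos tendsto_natCast_atTop_atTop)
  have h3 : ε ≤ 0 := by
    have := ge_of_tendsto' h2 h1
    simpa using this
  have h4 : ε = 0 := le_antisymm h3 measureReal_nonneg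
  rwa [hε, measureReal_eq_zero_iff] at h4

theorem A2_null {p : ℝ} (hp : 0 < p) : P d (Ak d p 2) = 0 := by
  rcases Nat.eq_zero_or_pos d with rfl | hd
  · have : Ak 0 p 2 = ∅ := by
      ext U
      simp only [mem_empty_iff_false, iff_false]
      rintro ⟨a, ha, -⟩
      exact ha 0 (Set.toFinite _)
    rw [this, measure_empty]
  · by_contra h2
    obtain ⟨m, hm⟩ := exists_tri hp (two_to_three hd hp h2)
    exact hm (tri_null p m)

theorem uniq {p : ℝ} (hp : 0 < p) :
    ∀ᵐ U ∂(P d), ∀ a b : V d, (Cl (op p U) univ a).Infinite → (Cl (op p U) univ b).Infinite →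
      Conn (op p U) univ a b := by
  have h := A2_null (d := d) hp
  rw [measure_eq_zero_iff_ae_notMem] at h
  filter_upwards [h] with U hU a b ha hb
  by_contra hab
  apply hU
  refine ⟨![a, b], ?_, ?_⟩
  · intro i
    fin_cases i
    · exact ha
    · exact hb
  · intro i j hij
    fin_cases i <;> fin_cases j
    · exact absurd rfl hij
    · exact hab
    · exact fun h => hab h.symm
    · exact absurd rfl hij

theorem exists_inf {p : ℝ} (h : 0 < theta d p) :
    ∀ᵐ U ∂(P d), ∃ a : V d, (Cl (op p U) univ a).Infinite := by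
  have hsub : {U : Cfg d | (Cl (op p U) univ 0).Infinite} ⊆ Ak d p 1 := by
    intro U hU
    refine ⟨fun _ => 0, fun _ => hU, fun i j hij => absurd (Subsingleton.elim i j) hij⟩
  have h1 : P d (Ak d p 1) ≠ 0 := by
    intro h0
    have h2 := measure_mono_null hsub h0
    rw [theta, thetaW, measureReal_def, h2] at h
    simp at h
  have hd : 0 < d := by
    rcases Nat.eq_zero_or_pos d with rfl | hd
    · exfalso
      apply h1
      have : Ak 0 p 1 = ∅ := by
        ext U
        simp only [mem_empty_iff_false, iff_false]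
        rintro ⟨a, ha, -⟩
        exact ha 0 (Set.toFinite _)
      rw [this, measure_empty]
    · exact hd
  have h3 := (Ak_zero_one hd p 1).resolve_left h1
  have h4 : P d (Ak d p 1)ᶜ = 0 := by
    rw [prob_compl_eq_zero_iff (measurableSet_Ak p 1)]
    exact h3
  rw [measure_eq_zero_iff_ae_notMem] at h4
  filter_upwards [h4] with U hU
  simp only [mem_compl_iff, not_not] at hU
  obtain ⟨a, ha, -⟩ := hU
  exact ⟨a 0, ha 0⟩

end Pool.Agent.helper40.FP
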