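import Pool.Agent.helper55.FP.Conn

/-!
# Uniqueness of the infinite cluster: deterministic part

`Tri O B`: trifurcation sets; the number of disjoint trifurcation sets is at most the number of
points of a finite set `Y` which all the infinite branches meet (`count`).
-/

set_option autoImplicit false

open MeasureTheory Set Filter Topology
open scoped ENNReal

namespace Pool.Agent.helper40.FP

open Pool.Agent.helper55.FP

variable {d : ℕ}

theorem Step.symm' {O : Set (E d)} {W : Set (V d)} {a b : V d} (h : Step O W a b) :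
    Step O W b a := by
  obtain ⟨ha, hb, e, he, hj⟩ := h
  exact ⟨hb, ha, e, he, hj.symm⟩

theorem conn_of_step {O : Set (E d)} {W : Set (V d)} {a b : V d} (h : Step O W a b) :
    Conn O W a b := ⟨h.1, Relation.ReflTransGen.single h⟩

/-- first exit from `S` -/
theorem exit {O : Set (E d)} {W S : Set (V d)} {a b : V d} (h : Conn O W a b) (ha : a ∈ S)
    (hb : b ∉ S) : ∃ u v, Conn O (W ∩ S) a u ∧ Step O W u v ∧ v ∉ S := by
  obtain ⟨haW, hp⟩ := h
  have key : ∀ b, Relation.ReflTransGen (Step O W) a b → Conn O (W ∩ S) a b ∨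
      ∃ u v, Conn O (W ∩ S) a u ∧ Step O W u v ∧ v ∉ S := by
    intro b hb
    induction hb with
    | refl => exact Or.inl (Conn.refl ⟨haW, ha⟩)
    | tail h1 h2 ih =>
      rename_i b c
      rcases ih with ih | ih
      · by_cases hc : c ∈ S
        · left
          refine ih.snoc ⟨ih.right, ⟨h2.2.1, hc⟩, h2.2.2⟩
        · exact Or.inr ⟨b, c, ih, h2, hc⟩
      · exact Or.inr ih
  rcases key b hp with h1 | h1
  · exact absurd h1.right.2 hb
  · exact h1

/-- a connection stays in the cluster -/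
theorem conn_restrict {O : Set (E d)} {W : Set (V d)} {a b : V d} (h : Conn O W a b) :
    Conn O (Cl O W a) a b := by
  by_contra hcon
  have hp := h.2
  have key : ∀ b, Relation.ReflTransGen (Step O W) a b → Conn O (Cl O W a) a b := by
    intro b hb
    induction hb with
    | refl => exact Conn.refl (Conn.refl h.1)
    | tail h1 h2 ih =>
      rename_i b c
      have hb : Conn O W a b := ⟨h.1, h1⟩
      exact ih.snoc ⟨hb, hb.snoc h2, h2.2.2⟩
  exact hcon (key b hp)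

theorem conn_of_cl_subset {O : Set (E d)} {W W' : Set (V d)} {a b : V d} (h : Conn O W a b)
    (hs : Cl O W a ⊆ W') : Conn O W' a b :=
  (conn_restrict h).mono le_rfl hs

/-- `B` is a trifurcation set -/
def Tri (O : Set (E d)) (B : Set (V d)) : Prop :=
  B.Nonempty ∧ (∀ x ∈ B, ∀ y ∈ B, Conn O B x y) ∧
  ∃ a : Fin 3 → V d, (∀ i, a i ∉ B ∧ (∃ b ∈ B, Step O univ b (a i)) ∧
      (Cl O Bᶜ (a i)).Infinite) ∧ ∀ i j, i ≠ j → ¬ Conn O Bᶜ (a i) (a j)

/-- counting trifurcation sets -/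
theorem count {O : Set (E d)} {ι : Type*} [Fintype ι] (B : ι → Set (V d))
    (hdisj : ∀ i j, i ≠ j → Disjoint (B i) (B j)) (hT : ∀ i, Tri O (B i)) (Z Y : Finset (V d))
    (hZ : ∀ i, B i ⊆ Z)
    (hY : ∀ i a, a ∉ B i → (∃ b ∈ B i, Step O univ b a) → (Cl O (B i)ᶜ a).Infinite →
      ∃ y ∈ Y, Conn O (B i)ᶜ a y) : Fintype.card ι ≤ Y.card := by
  classical
  choose a ha hdisc using fun i => (hT i).2.2
  let v : ι → (Y → ℝ) := fun t y => ∑ k : Fin 3,
    if Conn O (B t)ᶜ (a t k) y then (((k : ℕ) : ℝ) + 1) else 0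
  suffices hv : LinearIndependent ℝ v by
    have h1 := hv.fintype_card_le_finrank
    rwa [Module.finrank_fintype_fun_eq_card, Fintype.card_coe] at h1
  rw [Fintype.linearIndependent_iff]
  intro g hg
  by_contra hne
  push Not at hne
  obtain ⟨t0, ht0⟩ := hne
  -- a maximal branch
  let N : Set ℕ := {m | ∃ t c, g t ≠ 0 ∧ c ∉ B t ∧ (∃ b ∈ B t, Step O univ b c) ∧
    (Cl O (B t)ᶜ c ∩ (Z : Set (V d))).ncard = m}
  have hN1 : N.Nonempty := ⟨_, t0, a t0 0, ht0, (ha t0 0).1, (ha t0 0).2.1, rfl⟩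
  have hN2 : BddAbove N := by
    refine ⟨Z.card, ?_⟩
    rintro m ⟨t, c, -, -, -, rfl⟩
    rw [← Set.ncard_coe_finset Z]
    exact Set.ncard_le_ncard inter_subset_right (Finset.finite_toSet Z)
  obtain ⟨t, c, hgt, hcB, hcadj, hmax⟩ := Nat.sSup_mem hN1 hN2
  have hmax' : ∀ t' c', g t' ≠ 0 → c' ∉ B t' → (∃ b ∈ B t', Step O univ b c') →
      (Cl O (B t')ᶜ c' ∩ (Z : Set (V d))).ncard ≤ (Cl O (B t)ᶜ c ∩ (Z : Set (V d))).ncard := by
    intro t' c' h1 h2 h3
    rw [hmax]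
    exact le_csSup hN2 ⟨t', c', h1, h2, h3, rfl⟩
  have key : ∀ t', g t' ≠ 0 → t' ≠ t → ∀ k, ¬ Conn O (B t)ᶜ c (a t k) →
      ∀ x ∈ B t', ¬ Conn O (B t)ᶜ (a t k) x := by
    intro t' hg' htt' k hk b' hb' hconn
    have hd1 := Set.disjoint_left.1 (hdisj t' t htt')
    have hd2 := Set.disjoint_left.1 (hdisj t t' htt'.symm)
    obtain ⟨b0, hb0, hs0⟩ := (ha t k).2.1
    have h1 : Conn O univ b0 b' :=
      (conn_of_step hs0).trans (hconn.mono le_rfl (subset_univ _))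
    obtain ⟨u, w, hu, huw, hw⟩ := exit (S := (B t')ᶜ) h1 (hd2 hb0) (by simpa using hb')
    rw [univ_inter] at hu
    have hw' : w ∈ B t' := by simpa using hw
    have h2 := hmax' t' u hg' hu.right ⟨w, hw', Step.symm' huw⟩
    -- the cluster of `u` contains `B t` and `K`
    have h3 : ∀ x ∈ B t, Conn O (B t')ᶜ b0 x := fun x hx =>
      ((hT t).2.1 b0 hb0 x hx).mono le_rfl (fun y hy => hd2 hy)
    have h4 : ∀ y, Conn O (B t)ᶜ c y → y ∉ B t' := by
      intro y hy hyB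
      refine hk (hy.trans ?_)
      have h5 : Conn O (B t)ᶜ y b' :=
        ((hT t').2.1 y hyB b' hb').mono le_rfl (fun z hz => hd1 hz)
      exact h5.trans hconn.symm
    obtain ⟨b1, hb1, hs1⟩ := hcadj
    have h5 : Conn O (B t')ᶜ b0 c := by
      refine (h3 b1 hb1).trans (conn_of_step ⟨hd2 hb1, ?_, hs1.2.2⟩)
      exact h4 c (Conn.refl hcB)
    have h6 : (Cl O (B t)ᶜ c ∩ (Z : Set (V d))) ⊂ (Cl O (B t')ᶜ u ∩ (Z : Set (V d))) := by
      rw [Set.ssubset_iff_of_subset]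
      · refine ⟨b0, ⟨hu.symm, hZ t hb0⟩, fun h => ?_⟩
        exact (show b0 ∉ B t from Conn.right h.1) hb0
      · rintro y ⟨hy, hyZ⟩
        refine ⟨hu.symm.trans (h5.trans ?_), hyZ⟩
        exact conn_of_cl_subset hy h4
    have h7 := Set.ncard_lt_ncard h6 ((Finset.finite_toSet Z).subset inter_subset_right)
    omega
  -- two good branches
  have h2k : ∃ k1 k2 : Fin 3, k1 ≠ k2 ∧ ¬ Conn O (B t)ᶜ c (a t k1) ∧
      ¬ Conn O (B t)ᶜ c (a t k2) := by
    have hex : ∀ i j : Fin 3, i ≠ j → Conn O (B t)ᶜ c (a t i) → ¬ Conn O (B t)ᶜ c (a t j) :=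
      fun i j hij h1 h2 => hdisc t i j hij (h1.symm.trans h2)
    by_cases h0 : Conn O (B t)ᶜ c (a t 0)
    · exact ⟨1, 2, by decide, hex 0 1 (by decide) h0, hex 0 2 (by decide) h0⟩
    · by_cases h1 : Conn O (B t)ᶜ c (a t 1)
      · exact ⟨0, 2, by decide, h0, hex 1 2 (by decide) h1⟩
      · exact ⟨0, 1, by decide, h0, h1⟩
  obtain ⟨k1, k2, hk12, hk1, hk2⟩ := h2k
  obtain ⟨y1, hy1, hc1⟩ := hY t (a t k1) (ha t k1).1 (ha t k1).2.1 (ha t k1).2.2
  obtain ⟨y2, hy2, hc2⟩ := hY t (a t k2) (ha t k2).1 (ha t k2).2.1 (ha t k2).2.2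
  have hv1 : ∀ k y (hy : y ∈ Y), Conn O (B t)ᶜ (a t k) y →
      v t ⟨y, hy⟩ = ((k : ℕ) : ℝ) + 1 := by
    intro k y hy hc
    simp only [v]
    rw [Finset.sum_eq_single k]
    · rw [if_pos hc]
    · intro k' _ hk'
      rw [if_neg]
      intro hc'
      exact hdisc t k' k hk' (hc'.trans hc.symm)
    · intro h
      exact absurd (Finset.mem_univ _) h
  have hvt' : ∀ t', g t' ≠ 0 → t' ≠ t → v t' ⟨y1, hy1⟩ = v t' ⟨y2, hy2⟩ := by
    intro t' hg' htt'
    have hd1 := Set.disjoint_left.1 (hdisj t' t htt')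
    have hd2 := Set.disjoint_left.1 (hdisj t t' htt'.symm)
    have h12 : Conn O (B t')ᶜ y1 y2 := by
      have hK : ∀ k, ¬ Conn O (B t)ᶜ c (a t k) → ∀ y, Conn O (B t)ᶜ (a t k) y →
          ∃ b ∈ B t, Conn O (B t')ᶜ b y := by
        intro k hk y hy
        have hsub : Cl O (B t)ᶜ (a t k) ⊆ (B t')ᶜ := fun x hx hxB =>
          key t' hg' htt' k hk x hxB hx
        obtain ⟨b, hb, hs⟩ := (ha t k).2.1
        refine ⟨b, hb, ?_⟩
        refine (conn_of_step ⟨hd2 hb, ?_, hs.2.2⟩).trans (conn_of_cl_subset hy hsub)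
        exact hsub (Conn.refl (ha t k).1)
      obtain ⟨b1, hb1, h1⟩ := hK k1 hk1 y1 hc1
      obtain ⟨b2, hb2, h2⟩ := hK k2 hk2 y2 hc2
      have h3 : Conn O (B t')ᶜ b1 b2 :=
        ((hT t).2.1 b1 hb1 b2 hb2).mono le_rfl (fun y hy => hd2 hy)
      exact h1.symm.trans (h3.trans h2)
    simp only [v]
    refine Finset.sum_congr rfl fun k _ => ?_
    have : Conn O (B t')ᶜ (a t' k) y1 ↔ Conn O (B t')ᶜ (a t' k) y2 :=
      ⟨fun h => h.trans h12, fun h => h.trans h12.symm⟩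
    simp only [this]
  have e1 := congrFun hg ⟨y1, hy1⟩
  have e2 := congrFun hg ⟨y2, hy2⟩
  simp only [Finset.sum_apply, Pi.smul_apply, smul_eq_mul, Pi.zero_apply] at e1 e2
  have e3 : ∑ i, g i * (v i ⟨y1, hy1⟩ - v i ⟨y2, hy2⟩) = 0 := by
    simp only [mul_sub, Finset.sum_sub_distrib, e1, e2, sub_zero]
  rw [Finset.sum_eq_single t] at e3
  · rw [hv1 k1 y1 hy1 hc1, hv1 k2 y2 hy2 hc2] at e3
    rcases mul_eq_zero.1 e3 with h | h
    · exact hgt h
    · apply hk12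
      have : ((k1 : ℕ) : ℝ) = ((k2 : ℕ) : ℝ) := by linarith
      exact Fin.ext (by exact_mod_cast this)
  · intro i _ hi
    by_cases hgi : g i = 0
    · rw [hgi, zero_mul]
    · rw [hvt' i hgi hi, sub_self, mul_zero]
  · intro h
    exact absurd (Finset.mem_univ _) h

end Pool.Agent.helper40.FP
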