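import Pool.Agent.helper40.FP.Graph

/-!
# Uniqueness of the infinite cluster: boxes, opening the edges of a box
-/

set_option autoImplicit false

open MeasureTheory Set Filter Topology
open scoped ENNReal

namespace Pool.Agent.helper40.FP

open Pool.Agent.helper55.FP

variable {d : ℕ}

/-- an infinite cluster meeting a finite set has an infinite branch outside this set -/
theorem exists_branch {O : Set (E d)} {B : Set (V d)} (hB : B.Finite) {x : V d} (hx : x ∈ B)
    (h : (Cl O univ x).Infinite) : ∃ a, a ∉ B ∧ (∃ b ∈ B, Step O univ b a) ∧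
      Conn O univ x a ∧ (Cl O Bᶜ a).Infinite := by
  by_contra hcon
  push Not at hcon
  apply h
  let N : Set (V d) := {a | a ∉ B ∧ (∃ b ∈ B, Step O univ b a) ∧ Conn O univ x a}
  have hN : N.Finite := by
    refine (hB.biUnion fun b _ => adj_finite b).subset ?_
    rintro a ⟨-, ⟨b, hb, hs⟩, -⟩
    obtain ⟨e, -, he⟩ := hs.2.2
    exact mem_biUnion hb ⟨e, he⟩
  have hsub : Cl O univ x ⊆ B ∪ ⋃ a ∈ N, Cl O Bᶜ a := by
    intro y hy
    by_cases hyB : y ∈ B
    · exact Or.inl hyB
    · right
      have h1 : Conn O univ y x := Conn.symm hy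
      obtain ⟨u, v, hu, huv, hv⟩ := exit (S := Bᶜ) h1 hyB (by simpa using hx)
      rw [univ_inter] at hu
      have hv' : v ∈ B := by simpa using hv
      refine mem_biUnion (x := u) ⟨hu.right, ⟨v, hv', Step.symm' huv⟩, ?_⟩ hu.symm
      exact Conn.trans hy (hu.mono le_rfl (subset_univ _))
  refine (hB.union (hN.biUnion fun a ha => ?_)).subset hsub
  exact hcon a ha.1 ha.2.1 ha.2.2

theorem conn_union_inner {O : Set (E d)} {B W : Set (V d)} (hW : Disjoint W B) {a b : V d}
    (h : Conn (O ∪ inner B) W a b) : Conn O W a b := by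
  obtain ⟨haW, hp⟩ := h
  refine ⟨haW, Relation.ReflTransGen.mono ?_ _ _ hp⟩
  rintro u v ⟨hu, hv, e, he, hj⟩
  refine ⟨hu, hv, e, ?_, hj⟩
  rcases he with he | he
  · exact he
  · exfalso
    have h1 := Set.disjoint_left.1 hW
    rcases hj with ⟨h2, h3⟩ | ⟨h2, h3⟩
    · exact h1 hu (h2 ▸ he.1)
    · exact h1 hv (h2 ▸ he.1)

/-- opening the edges of `B` merges the clusters -/
theorem merge {O : Set (E d)} {B : Set (V d)} (hB : B.Finite)
    (hBc : ∀ x ∈ B, ∀ y ∈ B, Conn (inner B) B x y) {a b : V d} (ha : a ∈ B) (hb : b ∈ B)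
    (h3 : ∀ c, (Cl O univ c).Infinite → Conn O univ a c ∨ Conn O univ b c) (c : V d)
    (hc : (Cl (O ∪ inner B) univ c).Infinite) : Conn (O ∪ inner B) univ a c := by
  obtain ⟨a', ha', -, hca', hinf⟩ := exists_branch (B := insert c B) (hB.insert c)
    (mem_insert c B) hc
  have hd : Disjoint ((insert c B)ᶜ : Set (V d)) B := by
    rw [Set.disjoint_left]
    intro z hz hzB
    exact hz (mem_insert_of_mem c hzB)
  have h1 : (Cl O univ a').Infinite := by
    refine hinf.mono fun z hz => ?_
    exact (conn_union_inner hd hz).mono le_rfl (subset_univ _)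
  have h2 : Conn (O ∪ inner B) univ a a' := by
    rcases h3 a' h1 with h | h
    · exact h.mono subset_union_left le_rfl
    · exact ((hBc a ha b hb).mono subset_union_right (subset_univ _)).trans
        (h.mono subset_union_left le_rfl)
  exact h2.trans hca'.symm

/-- three clusters give a trifurcation set -/
theorem tri_of_three {O : Set (E d)} {B : Set (V d)} (hB : B.Finite)
    (hBc : ∀ x ∈ B, ∀ y ∈ B, Conn (inner B) B x y) (x : Fin 3 → V d) (hx : ∀ i, x i ∈ B)
    (hinf : ∀ i, (Cl O univ (x i)).Infinite)
    (hdis : ∀ i j, i ≠ j → ¬ Conn O univ (x i) (x j)) : Tri (O ∪ inner B) B := by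
  refine ⟨⟨x 0, hx 0⟩, fun u hu v hv => (hBc u hu v hv).mono subset_union_right le_rfl, ?_⟩
  choose a h1 h2 h3 h4 using fun i => exists_branch hB (hx i) (hinf i)
  refine ⟨a, fun i => ⟨h1 i, ?_, ?_⟩, ?_⟩
  · obtain ⟨b, hb, hs⟩ := h2 i
    exact ⟨b, hb, hs.1, hs.2.1, hs.2.2.imp fun e he => ⟨Or.inl he.1, he.2⟩⟩
  · exact (h4 i).mono fun z hz => Conn.mono subset_union_left le_rfl hz
  · intro i j hij hc
    have h5 : Conn O Bᶜ (a i) (a j) := conn_union_inner disjoint_compl_left hc
    exact hdis i j hij (((h3 i).trans (h5.mono le_rfl (subset_univ _))).trans (h3 j).symm)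

/-! ## boxes -/

/-- the box of radius `m` -/
noncomputable def box (d m : ℕ) : Finset (V d) := Finset.Icc (fun _ => -(m : ℤ)) (fun _ => (m : ℤ))

theorem mem_box {m : ℕ} {v : V d} : v ∈ box d m ↔ ∀ i, -(m : ℤ) ≤ v i ∧ v i ≤ m := by
  simp only [box, Finset.mem_Icc, Pi.le_def]
  exact ⟨fun h i => ⟨h.1 i, h.2 i⟩, fun h => ⟨fun i => (h i).1, fun i => (h i).2⟩⟩

theorem zero_mem_box (m : ℕ) : (0 : V d) ∈ box d m := by
  rw [mem_box]; intro i; simp

theorem box_mono {m n : ℕ} (h : m ≤ n) : box d m ⊆ box d n := by
  intro v hv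
  rw [mem_box] at hv ⊢
  intro i
  have := hv i
  constructor <;> omega

theorem card_box (m : ℕ) : (box d m).card = (2 * m + 1) ^ d := by
  rw [box, Pi.card_Icc]
  simp only [Int.card_Icc, Finset.prod_const, Finset.card_univ, Fintype.card_fin]
  congr 1
  omega

theorem exists_box (S : Finset (V d)) : ∃ m, S ⊆ box d m := by
  refine ⟨∑ v ∈ S, ∑ i, (v i).natAbs, fun v hv => ?_⟩
  rw [mem_box]
  intro i
  have h1 : (v i).natAbs ≤ ∑ i, (v i).natAbs :=
    Finset.single_le_sum (f := fun i => (v i).natAbs) (fun _ _ => Nat.zero_le _)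
      (Finset.mem_univ i)
  have h2 : ∑ i, (v i).natAbs ≤ ∑ v ∈ S, ∑ i, (v i).natAbs :=
    Finset.single_le_sum (f := fun v : V d => ∑ i, (v i).natAbs) (fun _ _ => Nat.zero_le _) hv
  omega

theorem box_conn_zero (m n : ℕ) : ∀ v : V d, (∑ i, (v i).natAbs) = n → v ∈ box d m →
    Conn (inner (↑(box d m) : Set (V d))) ↑(box d m) v 0 := by
  induction n using Nat.strong_induction_on with
  | _ n ih =>
    intro v hn hv
    by_cases h0 : v = 0
    · rw [h0]
      exact Conn.refl (Finset.mem_coe.2 (zero_mem_box m))
    · obtain ⟨i, hi⟩ := Function.ne_iff.1 h0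
      simp only [Pi.zero_apply] at hi
      have hv' := mem_box.1 hv
      rcases lt_or_gt_of_ne hi with hneg | hpos
      · -- `v i < 0`
        set v' : V d := v + Pi.single i 1 with hv'def
        have hbox : v' ∈ box d m := by
          rw [mem_box]
          intro j
          have := hv' j
          by_cases hj : j = i
          · subst hj
            simp only [hv'def, Pi.add_apply, Pi.single_eq_same]
            constructor <;> omega
          · simp only [hv'def, Pi.add_apply, Pi.single_eq_of_ne hj, add_zero]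
            exact this
        have hlt : (∑ j, (v' j).natAbs) < n := by
          rw [← hn]
          refine Finset.sum_lt_sum ?_ ⟨i, Finset.mem_univ i, ?_⟩
          · intro j _
            by_cases hj : j = i
            · subst hj
              simp only [hv'def, Pi.add_apply, Pi.single_eq_same]
              omega
            · simp only [hv'def, Pi.add_apply, Pi.single_eq_of_ne hj, add_zero, le_refl]
          · simp only [hv'def, Pi.add_apply, Pi.single_eq_same]
            omega
        have h1 : Step (inner (↑(box d m) : Set (V d))) (↑(box d m)) v v' :=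
          ⟨hv, hbox, (v, i), ⟨hv, hbox⟩, Or.inl ⟨rfl, rfl⟩⟩
        exact (conn_of_step h1).trans (ih _ hlt v' rfl hbox)
      · set v' : V d := v - Pi.single i 1 with hv'def
        have hbox : v' ∈ box d m := by
          rw [mem_box]
          intro j
          have := hv' j
          by_cases hj : j = i
          · subst hj
            simp only [hv'def, Pi.sub_apply, Pi.single_eq_same]
            constructor <;> omega
          · simp only [hv'def, Pi.sub_apply, Pi.single_eq_of_ne hj, sub_zero]
            exact this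
        have hlt : (∑ j, (v' j).natAbs) < n := by
          rw [← hn]
          refine Finset.sum_lt_sum ?_ ⟨i, Finset.mem_univ i, ?_⟩
          · intro j _
            by_cases hj : j = i
            · subst hj
              simp only [hv'def, Pi.sub_apply, Pi.single_eq_same]
              omega
            · simp only [hv'def, Pi.sub_apply, Pi.single_eq_of_ne hj, sub_zero, le_refl]
          · simp only [hv'def, Pi.sub_apply, Pi.single_eq_same]
            omega
        have hvv' : tip (v', i) = v := by simp [tip, hv'def]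
        have h1 : Step (inner (↑(box d m) : Set (V d))) (↑(box d m)) v v' := by
          refine ⟨hv, hbox, (v', i), ⟨hbox, ?_⟩, Or.inr ⟨rfl, hvv'.symm⟩⟩
          rw [hvv']
          exact hv
        exact (conn_of_step h1).trans (ih _ hlt v' rfl hbox)

theorem box_conn (m : ℕ) : ∀ x ∈ (↑(box d m) : Set (V d)), ∀ y ∈ (↑(box d m) : Set (V d)),
    Conn (inner (↑(box d m) : Set (V d))) ↑(box d m) x y := by
  intro x hx y hy
  exact (box_conn_zero m _ x rfl hx).trans (box_conn_zero m _ y rfl hy).symm

theorem inner_finite {B : Set (V d)} (hB : B.Finite) : (inner B).Finite := by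
  refine (hB.prod (Set.finite_univ (α := Fin d))).subset ?_
  rintro ⟨x, i⟩ hx
  exact ⟨hx.1, mem_univ _⟩

end Pool.Agent.helper40.FP
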