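import Pool.Agent.helper40.FP.Graph2
import Pool.Agent.helper55.FP.Meas
import Pool.Agent.helper55.FP.Indep
import Pool.Agent.helper55.FP.Symm

/-!
# Uniqueness of the infinite cluster: probabilistic tools

Translations, 0-1 law for translation invariant events, opening finitely many edges.
-/

set_option autoImplicit false

open MeasureTheory Set Filter Topology
open scoped ENNReal symmDiff

namespace Pool.Agent.helper40.FP

open Pool.Agent.helper55.FP

variable {d : ℕ}

/-! ## translations -/

/-- translation of edges -/
def trE (z : V d) : E d ≃ E d := (Equiv.addRight z).prodCongr (Equiv.refl _)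

theorem trE_apply (z : V d) (e : E d) : trE z e = (e.1 + z, e.2) := rfl

theorem tip_trE (z : V d) (e : E d) : tip (trE z e) = tip e + z := by
  simp only [tip, trE_apply]
  abel

theorem joins_trE (z : V d) (e : E d) (a b : V d) :
    Joins e a b ↔ Joins (trE z e) (a + z) (b + z) := by
  simp only [Joins, tip_trE]
  simp [trE_apply]

/-- translation as an automorphism -/
def trA (z : V d) : Aut d := ⟨Equiv.addRight z, trE z, fun e a b => joins_trE z e a b⟩

/-- action of translations on configurations -/
def tr (z : V d) (U : Cfg d) : Cfg d := fun e => U (trE z e)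

theorem mp_tr (z : V d) : MeasurePreserving (tr z : Cfg d → Cfg d) (P d) (P d) :=
  measurePreserving_comp (trE z)

theorem conn_tr (z : V d) (p : ℝ) (U : Cfg d) (W : Set (V d)) (a b : V d) :
    Conn (op p (tr z U)) ((fun v => v + z) ⁻¹' W) a b ↔ Conn (op p U) W (a + z) (b + z) := by
  have h := cl_aut (trA z) p U W a
  have h2 : b ∈ Cl (op p (fun e => U ((trA z).ψ e))) ((trA z).φ ⁻¹' W) a ↔
      b ∈ (trA z).φ ⁻¹' Cl (op p U) W ((trA z).φ a) := by rw [h]
  exact h2

theorem cl_tr (z : V d) (p : ℝ) (U : Cfg d) (W : Set (V d)) (a : V d) :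
    Cl (op p (tr z U)) ((fun v => v + z) ⁻¹' W) a = (fun v => v + z) ⁻¹' Cl (op p U) W (a + z) := by
  ext b
  exact conn_tr z p U W a b

theorem infinite_tr (z : V d) (p : ℝ) (U : Cfg d) (W : Set (V d)) (a : V d) :
    (Cl (op p (tr z U)) ((fun v => v + z) ⁻¹' W) a).Infinite ↔
      (Cl (op p U) W (a + z)).Infinite := by
  rw [cl_tr, ← not_iff_not, Set.not_infinite, Set.not_infinite]
  exact ⟨fun h => h.of_preimage (fun v => ⟨v - z, sub_add_cancel v z⟩),
    fun h => h.preimage (add_left_injective z).injOn⟩

/-- 0-1 law for translation invariant events -/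
theorem zero_one (hd : 0 < d) {A : Set (Cfg d)} (hA : MeasurableSet A)
    (hinv : ∀ z : V d, tr z ⁻¹' A = A) : P d A = 0 ∨ P d A = 1 := by
  have key : ∀ ε : ℝ, 0 < ε → |(P d).real A - (P d).real A * (P d).real A| ≤ 4 * ε := by
    intro ε hε
    have hdense := Measure.MeasureDense.of_generateFrom_isSetAlgebra_finite (P d)
      (𝒜 := measurableCylinders (fun _ : E d => ℝ)) isSetAlgebra_measurableCylinders
      generateFrom_measurableCylinders.symm
    obtain ⟨C, hC, hCA⟩ := hdense.approx A hA (measure_ne_top _ _) ε hε
    have hCm := hdense.measurable C hC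
    obtain ⟨F, S, hS, hCF⟩ := (mem_measurableCylinders C).1 hC
    obtain ⟨m, hm⟩ := exists_box (F.image Prod.fst)
    let z : V d := fun _ => 2 * (m : ℤ) + 1
    have hCdep : DependsOn (fun U => U ∈ C) (F : Set (E d)) := by
      intro U U' hUU'
      rw [hCF]
      simp only [mem_cylinder, eq_iff_iff]
      have : (fun i : F => U i) = fun i : F => U' i := by
        funext i
        exact hUU' i i.2
      rw [show F.restrict U = F.restrict U' from this]
    have hCdep' : DependsOn (fun U => U ∈ tr z ⁻¹' C) (trE z '' (F : Set (E d))) := by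
      intro U U' hUU'
      exact hCdep (fun e he => hUU' _ ⟨e, he, rfl⟩)
    have hdisj : Disjoint (F : Set (E d)) (trE z '' (F : Set (E d))) := by
      rw [Set.disjoint_left]
      rintro _ he ⟨e, he', rfl⟩
      have h1 := mem_box.1 (hm (Finset.mem_image_of_mem Prod.fst he)) ⟨0, hd⟩
      have h2 := mem_box.1 (hm (Finset.mem_image_of_mem Prod.fst he')) ⟨0, hd⟩
      rw [trE_apply] at h1
      simp only [Pi.add_apply, z] at h1
      omega
    have hind := prob_inter hCm ((mp_tr z).measurable hCm) hCdep hCdep' hdisj
    have hmp : ∀ B : Set (Cfg d), MeasurableSet B → (P d).real (tr z ⁻¹' B) = (P d).real B := by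
      intro B hB
      rw [measureReal_def, (mp_tr z).measure_preimage hB.nullMeasurableSet, measureReal_def]
    rw [hmp C hCm] at hind
    have hCA' : (P d).real (A ∆ C) < ε := by
      rw [measureReal_def]
      have := (ENNReal.toReal_lt_toReal (measure_ne_top _ _) ENNReal.ofReal_ne_top).2 hCA
      rwa [ENNReal.toReal_ofReal hε.le] at this
    have hABdiff : ∀ B B' : Set (Cfg d), |(P d).real B - (P d).real B'| ≤ (P d).real (B ∆ B') := by
      intro B B'
      have h1 : (P d).real B ≤ (P d).real B' + (P d).real (B ∆ B') := by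
        refine (measureReal_mono ?_).trans (measureReal_union_le _ _)
        intro x hx
        by_cases hx' : x ∈ B'
        · exact Or.inl hx'
        · exact Or.inr (Or.inl ⟨hx, hx'⟩)
      have h2 : (P d).real B' ≤ (P d).real B + (P d).real (B ∆ B') := by
        refine (measureReal_mono ?_).trans (measureReal_union_le _ _)
        intro x hx
        by_cases hx' : x ∈ B
        · exact Or.inl hx'
        · exact Or.inr (Or.inr ⟨hx, hx'⟩)
      rw [abs_le]
      constructor <;> linarith
    have e1 : |(P d).real A - (P d).real (C ∩ tr z ⁻¹' C)| ≤ 2 * ε := by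
      refine (hABdiff _ _).trans ?_
      have hsub : A ∆ (C ∩ tr z ⁻¹' C) ⊆ (A ∆ C) ∪ (tr z ⁻¹' (A ∆ C)) := by
        intro x hx
        have hxA : tr z x ∈ A ↔ x ∈ A := by
          have := hinv z
          rw [Set.ext_iff] at this
          exact this x
        rcases hx with ⟨hx1, hx2⟩ | ⟨⟨hx1, hx2⟩, hx3⟩
        · by_cases hxC : x ∈ C
          · right; left
            exact ⟨hxA.2 hx1, fun h => hx2 ⟨hxC, h⟩⟩
          · left; left
            exact ⟨hx1, hxC⟩
        · left; right
          exact ⟨hx1, hx3⟩
      have h1 := (measureReal_mono (μ := P d) hsub).trans (measureReal_union_le _ _)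
      rw [hmp _ (hA.symmDiff hCm)] at h1
      linarith
    have e2 : |(P d).real A - (P d).real C| ≤ ε := (hABdiff _ _).trans hCA'.le
    have hA1 : (P d).real A ≤ 1 := measureReal_le_one
    have hA0 : 0 ≤ (P d).real A := measureReal_nonneg
    have hC1 : (P d).real C ≤ 1 := measureReal_le_one
    have hC0 : 0 ≤ (P d).real C := measureReal_nonneg
    rw [hind] at e1
    rw [abs_le] at e1 e2 ⊢
    constructor <;> nlinarith
  have h0 : (P d).real A - (P d).real A * (P d).real A = 0 := by
    by_contra hne
    have h1 := abs_pos.2 hne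
    have h2 := key (|(P d).real A - (P d).real A * (P d).real A| / 8) (by linarith)
    linarith
  have h1 : (P d).real A * (1 - (P d).real A) = 0 := by linarith
  rcases mul_eq_zero.1 h1 with h | h
  · left
    rwa [measureReal_eq_zero_iff] at h
  · right
    have h2 : (P d).real A = 1 := by linarith
    rw [measureReal_def] at h2
    rw [← ENNReal.ofReal_toReal (measure_ne_top (P d) A), h2, ENNReal.ofReal_one]

/-! ## opening edges -/

open Classical in
/-- open the edges of `F` -/
noncomputable def opn (p : ℝ) (F : Set (E d)) (U : Cfg d) : Cfg d := fun e => if e ∈ F then p else U e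

theorem op_opn (p : ℝ) (F : Set (E d)) (U : Cfg d) : op p (opn p F U) = op p U ∪ F := by
  ext e
  simp only [op, opn, mem_ofPred_eq, mem_union]
  by_cases he : e ∈ F
  · simp [he]
  · simp [he]

theorem measurable_opn (p : ℝ) (F : Set (E d)) : Measurable (opn p F : Cfg d → Cfg d) := by
  refine measurable_pi_lambda _ fun e => ?_
  by_cases he : e ∈ F
  · simp only [opn, he, if_true]
    exact measurable_const
  · simp only [opn, he, if_false]
    exact measurable_pi_apply e

/-- opening finitely many edges is absolutely continuous -/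
theorem null_opn {p : ℝ} (hp : 0 < p) {F : Set (E d)} (hF : F.Finite) {A : Set (Cfg d)}
    (hA : MeasurableSet A) (hop : ∀ U U' : Cfg d, op p U = op p U' → (U ∈ A → U' ∈ A))
    (h0 : P d A = 0) : P d (opn p F ⁻¹' A) = 0 := by
  let G : Set (Cfg d) := Set.pi hF.toFinset (fun _ => Iic p)
  have hG : MeasurableSet G := MeasurableSet.pi (Finset.countable_toSet _) fun _ _ => measurableSet_Iic
  have hGpos : (P d).real G ≠ 0 := by
    rw [measureReal_def]
    have : P d G = ∏ i ∈ hF.toFinset, unif (Iic p) :=
      Measure.infinitePi_pi (fun _ : E d => unif) (fun _ _ => measurableSet_Iic)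
    rw [this, ENNReal.toReal_prod, Finset.prod_ne_zero_iff]
    intro _ _
    have h1 : unif (Iic p) ≠ 0 := by
      rw [unif, Measure.restrict_apply measurableSet_Iic]
      have h2 : Icc 0 (min p 1) ⊆ Iic p ∩ Icc (0 : ℝ) 1 := by
        rintro x ⟨hx0, hx1⟩
        exact ⟨hx1.trans (min_le_left _ _), hx0, hx1.trans (min_le_right _ _)⟩
      intro h3
      have h4 := measure_mono_null h2 h3
      rw [Real.volume_Icc, ENNReal.ofReal_eq_zero] at h4
      have : 0 < min p 1 := lt_min hp one_pos
      linarith
    exact ENNReal.toReal_ne_zero.2 ⟨h1, measure_ne_top _ _⟩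
  have hdep : DependsOn (fun U => U ∈ opn p F ⁻¹' A) Fᶜ := by
    intro U U' hUU'
    have : opn p F U = opn p F U' := by
      funext e
      by_cases he : e ∈ F
      · simp [opn, he]
      · simp [opn, he, hUU' e he]
    simp only [mem_preimage, this]
  have hdepG : DependsOn (fun U => U ∈ G) F := by
    intro U U' hUU'
    simp only [G, Set.mem_pi, eq_iff_iff]
    refine forall_congr' fun e => forall_congr' fun he => ?_
    have he' : e ∈ F := by simpa using he
    rw [hUU' e he']
  have hind := prob_inter ((measurable_opn p F) hA) hG hdep hdepG disjoint_compl_left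
  have hsub : opn p F ⁻¹' A ∩ G ⊆ A := by
    rintro U ⟨h1, h2⟩
    refine hop _ _ ?_ h1
    rw [op_opn]
    apply union_eq_self_of_subset_right
    intro e he
    exact h2 e (by simpa using he)
  have h2 : (P d).real (opn p F ⁻¹' A ∩ G) = 0 := by
    rw [measureReal_def, measure_mono_null hsub h0, ENNReal.toReal_zero]
  rw [h2] at hind
  rcases mul_eq_zero.1 hind.symm with h | h
  · rwa [measureReal_eq_zero_iff] at h
  · exact absurd h hGpos

end Pool.Agent.helper40.FP
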